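import Pool.Agent.Lib.MP_b1acb3_co.Dgn.All

/-!
MP_b1acb3_co (Erdős–Tuza, rainbow subgraphs in locally balanced edge colourings): degenerate graphs
with `h ≤ e / (1 + δ)` core edges, sparse random graphs, graphs with a small core, and a negative
result for graphs with two vertices of large codegree.
-/

set_option autoImplicit false

namespace Pool.Agent.Results.MP_b1acb3_co.DegenerateGraphs

open Pool.Agent.Lib.MP_b1acb3_co

theorem result :
    (∀ (D : ℕ) (δ : ℝ), 0 < δ → ∃ (η : ℝ) (E0 : ℕ), 0 < η ∧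
      ∀ (V : Type) [Fintype V] (G : SimpleGraph V) (W : Finset V),
        TreeLikeOutside G W → DegenerateIn G W D → E0 ≤ numEdges G →
        (1 + δ) * (numEdgesIn G W : ℝ) ≤ (numEdges G : ℝ) →
        (∀ a ∈ W, ∀ b ∈ W, a ≠ b →
          (({u | u ∈ W ∧ G.Adj a u ∧ G.Adj b u}.ncard : ℕ) : ℝ) ≤ η * (numEdges G : ℝ)) →
        ForcesRainbow G) ∧
    (∀ ε : ℝ, 0 < ε → ∃ v0 : ℕ, ∀ v m : ℕ, v0 ≤ v → ε * (v : ℝ) ≤ (m : ℝ) →
      ε * (m : ℝ) ≤ (v : ℝ) →
      (({G : SimpleGraph (Fin v) | numEdges G = m ∧ ¬ ForcesRainbow G}.ncard : ℕ) : ℝ)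
        ≤ ε * (({G : SimpleGraph (Fin v) | numEdges G = m}.ncard : ℕ) : ℝ)) ∧
    (∀ (V : Type) [Fintype V] (G : SimpleGraph V) (W : Finset V) (d : ℕ),
      TreeLikeOutside G W → DegenerateIn G W d →
      ((numEdgesIn G W).choose 2 ≤ numEdges G ∨ 2 * d * numEdgesIn G W ≤ numEdges G + 1) →
      ForcesRainbow G) ∧
    (∀ (V : Type) [Fintype V] (G : SimpleGraph V) (a b : V), a ≠ b → Odd (numEdges G + 1) →
      (((numEdges G + 1).primeFactors.prod id) - 1) * (numEdges G + 1) <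
        2 * ((numEdges G + 1).primeFactors.prod id) * {u | G.Adj a u ∧ G.Adj b u}.ncard →
      ¬ ForcesRainbow G) :=
  ⟨Dgn.thmPos, Dgn.thmRnd, fun _ _ G W d hW hd h => positive_degenerate G W d hW hd h,
    Dgn.prfNeg⟩

end Pool.Agent.Results.MP_b1acb3_co.DegenerateGraphs
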