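import Pool.Agent.Lib.MP_b1acb3_co.Neg
import Pool.Agent.Lib.MP_b1acb3_co.Cliq.All

/-!
MP_b1acb3_co (Erdős–Tuza, rainbow subgraphs in locally balanced edge colourings), dense graphs:
a complete graph with at least two vertices has the property if and only if it has at most three
vertices; the property fails, even with regular colour classes, for every graph with `v` vertices
and more than `v (3 log₂ v + 2)` edges, and more generally for every graph with a sufficiently dense
part.
-/

namespace Pool.Agent.Results.MP_b1acb3_co.DenseGraphs

open Pool.Agent.Lib.MP_b1acb3_co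

theorem result :
    (∀ (V : Type) [Fintype V], 2 ≤ Fintype.card V →
      (ForcesRainbow (⊤ : SimpleGraph V) ↔ Fintype.card V ≤ 3)) ∧
    (∀ (V : Type) [Fintype V] (G : SimpleGraph V),
      ((Fintype.card V : ℝ) * (3 * Real.logb 2 (Fintype.card V) + 2) < (numEdges G : ℝ) ∨
        ∃ S : Finset V, 4 * ((numEdges G : ℝ) + 1) * S.card *
          Real.log ((4 * (numEdges G : ℝ) + 5) * S.card) <
            (numEdgesIn G S : ℝ) * (numEdgesIn G S - 1)) →
      RegularCounterexamples G ∧ ¬ ForcesRainbow G) := by
  refine ⟨fun V _ hV => Cliq.clique_iff V hV, fun V _ G h => ?_⟩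
  have h1 : RegularCounterexamples G := by
    rcases h with h | ⟨S, hS⟩
    · exact negative_dense G h
    · exact negative_log G S hS
  exact ⟨h1, not_forces_of G h1⟩

end Pool.Agent.Results.MP_b1acb3_co.DenseGraphs
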