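import Pool.Agent.Lib.MP_b1acb3_co.One.Main

/-!
MP_b1acb3_co (Erdős–Tuza, rainbow subgraphs in locally balanced edge colourings): the complete
classification of all graphs whose number of edges exceeds a fixed power of the number of edges
whose deletion leaves a forest.
-/

namespace Pool.Agent.Results.MP_b1acb3_co.SparseGraphs

open Pool.Agent.Lib.MP_b1acb3_co

theorem result : ∃ C : ℕ, ∀ (V : Type) [Fintype V] (G : SimpleGraph V) (b : ℕ), 1 ≤ b →
    -- deleting at most `b` edges leaves a forest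
    (∃ S : Finset (Sym2 V), S.card ≤ b ∧ (G.deleteEdges (S : Set (Sym2 V))).IsAcyclic) →
    -- there are many edges
    C * b ^ C ≤ numEdges G →
    -- classification
    (ForcesRainbow G ↔ ¬ ((∃ r : ℕ, numEdges G + 1 = 2 ^ r) ∧
      ∃ e₀ ∈ G.edgeSet, ∀ v, Even {u | G.Adj v u ∧ s(v, u) ≠ e₀}.ncard)) ∧
    -- in the exceptional case the counterexamples can be chosen with regular colour classes
    (((∃ r : ℕ, numEdges G + 1 = 2 ^ r) ∧
      ∃ e₀ ∈ G.edgeSet, ∀ v, Even {u | G.Adj v u ∧ s(v, u) ≠ e₀}.ncard) →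
      ∀ ε : ℝ, 0 < ε → ∀ n₀ : ℕ, ∃ n : ℕ, n₀ ≤ n ∧ ∃ c : Sym2 (Fin n) → Fin (numEdges G + 1),
        IsBalanced ε c ∧ (∀ k, ∃ D, ∀ i, colourDegree c i k = D) ∧ ¬ HasRainbowCopy G c) := by
  obtain ⟨C, hC2, hC⟩ := One.all_combined
  refine ⟨C, ?_⟩
  intro V _ G b hb hS he
  refine ⟨hC V G b hb hS he, ?_⟩
  rintro ⟨⟨r, hr⟩, h⟩
  have h1 : 1 ≤ b ^ C := Nat.one_le_pow _ _ hb
  have h2 : 2 ≤ numEdges G := by nlinarith
  have h5 : 2 ≤ r := by
    by_contra hlt
    have h6 : 2 ^ r ≤ 2 ^ 1 := Nat.pow_le_pow_right (by norm_num) (by omega)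
    omega
  exact (Cyc.main_neg G r h5 hr h).1

end Pool.Agent.Results.MP_b1acb3_co.SparseGraphs
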